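import Pool.Agent.Helper65.KH.Goals

/-!
# Project KH (MP_20ee5e_ag), packet SP2: the box spans
-/

set_option autoImplicit false

set_option maxHeartbeats 400000

open MvPolynomial

namespace Pool.Agent.Helper8.KH.SP2

open Pool.Agent.Helper65.KH

variable {ι : Type} [Fintype ι]

theorem mon_add (p q : ι → ℕ) : (mon (p + q) : MvPolynomial ι ℚ) = mon p * mon q := by
  simp only [mon, Pi.add_apply, pow_add, Finset.prod_mul_distrib]

theorem monomial_mon (s : ι →₀ ℕ) (a : ℚ) : monomial s a = a • mon (fun i => s i) := by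
  rw [MvPolynomial.monomial_eq, MvPolynomial.smul_eq_C_mul, mon, Finsupp.prod_fintype]
  intro i
  exact pow_zero _

/-- The linear span of monomials is closed under products with polynomials. -/
theorem span_mul {A : Set (ι → ℕ)} (hA : ∀ p ∈ A, ∀ q, p + q ∈ A) (r x : MvPolynomial ι ℚ)
    (hx : x ∈ Submodule.span ℚ ((fun p : ι → ℕ => (mon p : MvPolynomial ι ℚ)) '' A)) :
    r * x ∈ Submodule.span ℚ ((fun p : ι → ℕ => (mon p : MvPolynomial ι ℚ)) '' A) := by
  induction r using MvPolynomial.induction_on' with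
  | monomial s a =>
    induction hx using Submodule.span_induction with
    | mem y hy =>
      obtain ⟨p, hp, rfl⟩ := hy
      rw [monomial_mon, Algebra.smul_mul_assoc, ← mon_add]
      refine Submodule.smul_mem _ _ (Submodule.subset_span ⟨_, ?_, rfl⟩)
      rw [add_comm]
      exact hA p hp _
    | zero => rw [mul_zero]; exact Submodule.zero_mem _
    | add y z _ _ h1 h2 => rw [mul_add]; exact Submodule.add_mem _ h1 h2
    | smul b y _ h1 => rw [mul_smul_comm]; exact Submodule.smul_mem _ _ h1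
  | add p q h1 h2 => rw [add_mul]; exact Submodule.add_mem _ h1 h2

/-- The ideal generated by an upper set of monomials is their linear span. -/
theorem mem_span_of_ideal {A : Set (ι → ℕ)} (hA : ∀ p ∈ A, ∀ q, p + q ∈ A) (x : MvPolynomial ι ℚ)
    (hx : x ∈ Ideal.span {f : MvPolynomial ι ℚ | ∃ p : ι → ℕ, p ∈ A ∧ f = mon p}) :
    x ∈ Submodule.span ℚ ((fun p : ι → ℕ => (mon p : MvPolynomial ι ℚ)) '' A) := by
  induction hx using Submodule.span_induction with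
  | mem y hy =>
    obtain ⟨p, hp, rfl⟩ := hy
    exact Submodule.subset_span ⟨p, hp, rfl⟩
  | zero => exact Submodule.zero_mem _
  | add y z _ _ h1 h2 => exact Submodule.add_mem _ h1 h2
  | smul b y _ h1 => exact span_mul hA b y h1

theorem mem_of_mon {W : Submodule ℚ (MvPolynomial ι ℚ)} (h : ∀ p : ι → ℕ, mon p ∈ W)
    (f : MvPolynomial ι ℚ) : f ∈ W := by
  induction f using MvPolynomial.induction_on' with
  | monomial s a => rw [monomial_mon]; exact Submodule.smul_mem _ _ (h _)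
  | add p q h1 h2 => exact Submodule.add_mem _ h1 h2

/-- `fls` is the linear span of its monomials. -/
theorem fls_span (V : Finset (ι → ℕ)) (θ : ι → ℝ) (s : ℝ)
    (hmono : ∀ p q : ι → ℕ, dg V θ p ≤ dg V θ (p + q)) (x : MvPolynomial ι ℚ)
    (hx : x ∈ fls V θ s) (W : Submodule ℚ (MvPolynomial ι ℚ))
    (hW : ∀ q : ι → ℕ, s < dg V θ q → (mon q : MvPolynomial ι ℚ) ∈ W) : x ∈ W := by
  obtain ⟨A, hAdef⟩ : ∃ A : Set (ι → ℕ), ∀ q, q ∈ A ↔ s < dg V θ q :=
    ⟨{q | s < dg V θ q}, fun q => Iff.rfl⟩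
  have hA : ∀ p ∈ A, ∀ q, p + q ∈ A := by
    intro p hp q
    rw [hAdef] at hp ⊢
    exact lt_of_lt_of_le hp (hmono p q)
  have hx2 : x ∈ Ideal.span {f : MvPolynomial ι ℚ | ∃ p : ι → ℕ, p ∈ A ∧ f = mon p} := by
    have hle : fls V θ s ≤ Ideal.span {f : MvPolynomial ι ℚ | ∃ p : ι → ℕ, p ∈ A ∧ f = mon p} := by
      unfold fls
      refine Ideal.span_mono ?_
      rintro f ⟨p, hp, hf⟩
      exact ⟨p, (hAdef p).2 hp, hf⟩
    exact hle hx
  have hx3 := mem_span_of_ideal hA x hx2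
  have hle : Submodule.span ℚ ((fun p : ι → ℕ => (mon p : MvPolynomial ι ℚ)) '' A) ≤ W := by
    refine Submodule.span_le.2 ?_
    rintro _ ⟨q, hq, rfl⟩
    exact hW q ((hAdef q).1 hq)
  exact hle hx3

theorem key {V : Finset (ι → ℕ)} {θ : ι → ℝ} {t : ℝ} {Box : Finset (ι → ℕ)}
    {W : Submodule ℚ (MvPolynomial ι ℚ)}
    (hfin : {p : ι → ℕ | dg V θ p < t}.Finite)
    (hmono : ∀ p q : ι → ℕ, dg V θ p ≤ dg V θ (p + q))
    (hbox : ∀ b ∈ Box, (mon b : MvPolynomial ι ℚ) ∈ W)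
    (hJ : ∀ x : MvPolynomial ι ℚ, x ∈ idl (Lp V) → x ∈ W)
    (hfl : ∀ p : ι → ℕ, t ≤ dg V θ p → (mon p : MvPolynomial ι ℚ) ∈ W)
    (hstep : ∀ p, p ∉ Box → (mon p : MvPolynomial ι ℚ) ∈ idl (Lp V) ⊔ fls V θ (dg V θ p)) :
    ∀ (n : ℕ) (p : ι → ℕ), {q : ι → ℕ | dg V θ p < dg V θ q ∧ dg V θ q < t}.ncard = n →
      (mon p : MvPolynomial ι ℚ) ∈ W := by
  intro n
  induction n using Nat.strong_induction_on with
  | _ n ih =>
    intro p hn
    by_cases h1 : t ≤ dg V θ p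
    · exact hfl p h1
    by_cases h2 : p ∈ Box
    · exact hbox p h2
    obtain ⟨a, ha, b, hb, hab⟩ := Submodule.mem_sup.1 (hstep p h2)
    have h5 : b ∈ W := by
      refine fls_span V θ (dg V θ p) hmono b hb W fun q hq => ?_
      by_cases h6 : t ≤ dg V θ q
      · exact hfl q h6
      · refine ih _ ?_ q rfl
        rw [← hn]
        have h7 : q ∈ {q : ι → ℕ | dg V θ p < dg V θ q ∧ dg V θ q < t} := ⟨hq, not_le.1 h6⟩
        have h8 : q ∉ {x : ι → ℕ | dg V θ q < dg V θ x ∧ dg V θ x < t} := fun h => lt_irrefl _ h.1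
        refine Set.ncard_lt_ncard ?_ (hfin.subset fun x hx => hx.2)
        refine ⟨fun x hx => ⟨lt_trans hq hx.1, hx.2⟩, fun hsub => h8 (hsub h7)⟩
    rw [← hab]
    exact W.add_mem (hJ a ha) h5

theorem t (hSP1 : S_SP1) (hFN : S_FN) : S_SP2 := by
  intro ι _ _ V θ Box hC hG hθ hB t f
  obtain ⟨hfin, -, -, hmono⟩ := hFN ι V θ hC (fun i => (hθ.1 i).1)
  obtain ⟨J, hJdef⟩ : ∃ J : Ideal (MvPolynomial ι ℚ), J = idl (Lp V) ⊔ fl V θ t := ⟨_, rfl⟩
  obtain ⟨W, hW⟩ : ∃ W : Submodule ℚ (MvPolynomial ι ℚ), W =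
    Submodule.span ℚ ((fun p : ι → ℕ => (mon p : MvPolynomial ι ℚ)) '' (Box : Set (ι → ℕ))) ⊔
      J.restrictScalars ℚ := ⟨_, rfl⟩
  have hbox : ∀ b ∈ Box, (mon b : MvPolynomial ι ℚ) ∈ W := fun b hb => by
    rw [hW]
    exact Submodule.mem_sup_left (Submodule.subset_span ⟨b, hb, rfl⟩)
  have hJW : ∀ x : MvPolynomial ι ℚ, x ∈ J → x ∈ W := fun x hx => by
    rw [hW]
    exact Submodule.mem_sup_right hx
  have hfl : ∀ p : ι → ℕ, t ≤ dg V θ p → (mon p : MvPolynomial ι ℚ) ∈ W := fun p hp => by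
    refine hJW _ ?_
    rw [hJdef]
    exact Ideal.mem_sup_right (Ideal.subset_span ⟨p, hp, rfl⟩)
  have hstep : ∀ p, p ∉ Box →
      (mon p : MvPolynomial ι ℚ) ∈ idl (Lp V) ⊔ fls V θ (dg V θ p) := by
    intro p h2
    obtain ⟨σ, l, w, hcell, u, hu, hl⟩ := hB p h2
    exact hSP1 ι V θ hC hG hθ p σ l w u hcell hu hl
  have hidl : ∀ x : MvPolynomial ι ℚ, x ∈ idl (Lp V) → x ∈ W := fun x hx => by
    refine hJW x ?_
    rw [hJdef]
    exact Ideal.mem_sup_left hx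
  have hf : f ∈ W := mem_of_mon (fun p => key (hfin t) hmono hbox hidl hfl hstep _ p rfl) f
  rw [hW] at hf
  obtain ⟨u, hu, v, hv, huv⟩ := Submodule.mem_sup.1 hf
  obtain ⟨c, hc⟩ := (Submodule.mem_span_image_finset_iff_exists_fun ℚ).1 hu
  refine ⟨fun b => if h : b ∈ Box then c ⟨b, h⟩ else 0, ?_⟩
  have hsum : ∑ b ∈ Box, (if h : b ∈ Box then c ⟨b, h⟩ else 0) • (mon b : MvPolynomial ι ℚ) = u := by
    rw [← hc, ← Finset.sum_coe_sort Box
      (fun b => (if h : b ∈ Box then c ⟨b, h⟩ else 0) • (mon b : MvPolynomial ι ℚ))]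
    refine Finset.sum_congr rfl fun i _ => ?_
    rw [dif_pos i.2]
  rw [hsum, ← huv, add_sub_cancel_left, ← hJdef]
  exact hv

end Pool.Agent.Helper8.KH.SP2
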